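import Mathlib

set_option autoImplicit false

namespace Pool.Agent.Results.MP_f878ff_nt.Finite

open Finset

/-- finite representation in base `β` with digits in `0..m` -/
def FinRep (β : ℝ) (m : ℕ) (x : ℝ) : Prop :=
  ∃ (k : ℕ) (d : ℕ → ℕ), (∀ j, d j ≤ m) ∧ x = ∑ j ∈ range k, (d j : ℝ) / β ^ (j + 1)

lemma FinRep.mono {β : ℝ} {m n : ℕ} {x : ℝ} (h : FinRep β m x) (hmn : m ≤ n) : FinRep β n x := by
  obtain ⟨k, d, h1, h2⟩ := h
  exact ⟨k, d, fun j => (h1 j).trans hmn, h2⟩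

lemma FinRep.cons {β : ℝ} {m : ℕ} {x : ℝ} (h : FinRep β m x) (c : ℕ) (hc : c ≤ m) :
    FinRep β m ((c + x) / β) := by
  obtain ⟨k, d, h1, rfl⟩ := h
  refine ⟨k + 1, fun j => Nat.casesOn j c d, fun j => by cases j <;> simp [hc, h1], ?_⟩
  rw [sum_range_succ', add_div, sum_div, add_comm]
  congr 1
  · refine sum_congr rfl fun j _ => ?_
    simp only [div_div, pow_succ]
  · simp

lemma FinRep.add {β : ℝ} {m n : ℕ} {x y : ℝ} (h : FinRep β m x) (h' : FinRep β n y) :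
    FinRep β (m + n) (x + y) := by
  obtain ⟨k, d, h1, rfl⟩ := h
  obtain ⟨l, e, h2, rfl⟩ := h'
  refine ⟨k + l, fun j => (if j < k then d j else 0) + (if j < l then e j else 0), fun j => ?_, ?_⟩
  · have := h1 j; have := h2 j
    beta_reduce
    split_ifs <;> omega
  · have key : ∀ (k N : ℕ) (d : ℕ → ℕ), k ≤ N → ∑ j ∈ range k, (d j : ℝ) / β ^ (j + 1) =
        ∑ j ∈ range N, ((if j < k then d j else 0 : ℕ) : ℝ) / β ^ (j + 1) := by
      intro k N d hk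
      rw [← sum_subset (range_subset_range.2 hk)]
      · exact sum_congr rfl fun j hj => by rw [if_pos (mem_range.1 hj)]
      · intro j _ hj
        rw [if_neg (by simpa using hj)]; simp
    rw [key k (k + l) d (by omega), key l (k + l) e (by omega), ← sum_add_distrib]
    exact sum_congr rfl fun j _ => by push_cast; ring

def S (β x : ℝ) : Prop := ∃ m, FinRep β m x

lemma S_zero (β : ℝ) : S β 0 := ⟨0, 0, fun _ => 0, by simp, by simp⟩

lemma S.add {β x y : ℝ} (h : S β x) (h' : S β y) : S β (x + y) := by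
  obtain ⟨m, h⟩ := h
  obtain ⟨n, h'⟩ := h'
  exact ⟨_, h.add h'⟩

lemma S.cons {β x : ℝ} (h : S β x) (c : ℕ) : S β ((c + x) / β) := by
  obtain ⟨m, h⟩ := h
  exact ⟨m + c, (h.mono (by omega)).cons c (by omega)⟩

lemma S.div {β x : ℝ} (h : S β x) (n : ℕ) : S β (x / β ^ n) := by
  induction n with
  | zero => simpa using h
  | succ n ih => have := ih.cons 0; simpa [div_div, pow_succ] using this

lemma S_mon (β : ℝ) (c n : ℕ) : S β (c * β⁻¹ ^ n / β) := by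
  have := ((S_zero β).cons c).div n
  convert this using 1
  rw [inv_pow]; ring

lemma pos_rel_aux (ζ : ℂ) (h : 0 < ζ.im) :
    ∃ (n : ℕ) (b c : ℝ), 0 ≤ b ∧ 0 < c ∧ ζ ^ n + b * ζ + c = 0 := by
  have h1 : ∃ k : ℕ, (ζ ^ (k + 1)).im ≤ 0 := by
    have ha : 0 < ζ.arg := lt_of_le_of_ne (Complex.arg_nonneg_iff.2 h.le)
      (fun e => h.ne' (Complex.arg_eq_zero_iff.1 e.symm).2)
    have hb : ζ.arg ≤ Real.pi := Complex.arg_le_pi ζ
    refine ⟨⌊Real.pi / ζ.arg⌋₊, ?_⟩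
    set k := ⌊Real.pi / ζ.arg⌋₊
    have h3 : (k : ℝ) ≤ Real.pi / ζ.arg := Nat.floor_le (by positivity)
    have h4 : Real.pi / ζ.arg < k + 1 := Nat.lt_floor_add_one _
    rw [le_div_iff₀ ha] at h3
    rw [div_lt_iff₀ ha] at h4
    have e : ζ ^ (k + 1) = ((‖ζ‖ ^ (k + 1) : ℝ) : ℂ) *
        Complex.exp (((k + 1) * ζ.arg : ℝ) * Complex.I) := by
      conv_lhs => rw [← Complex.norm_mul_exp_arg_mul_I ζ, mul_pow, ← Complex.exp_nat_mul]
      push_cast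
      ring_nf
    rw [e, Complex.im_ofReal_mul, Complex.exp_ofReal_mul_I_im]
    apply mul_nonpos_of_nonneg_of_nonpos (by positivity)
    rw [← Real.sin_sub_two_pi]
    apply Real.sin_nonpos_of_nonpos_of_neg_pi_le <;> linarith
  classical
  have h2 := Nat.find_spec h1
  have h3 : Nat.find h1 ≠ 0 := fun e => by rw [e] at h2; simp at h2; linarith
  obtain ⟨k, hk⟩ := Nat.exists_eq_succ_of_ne_zero h3
  have h4 := Nat.find_min h1 (show k < Nat.find h1 by omega)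
  rw [hk] at h2
  have hn : 0 < Complex.normSq ζ := Complex.normSq_pos.2 (fun e => by simp [e] at h)
  refine ⟨k + 1 + 1, - (ζ ^ (k + 1 + 1)).im / ζ.im, Complex.normSq ζ * (ζ ^ (k + 1)).im / ζ.im,
    div_nonneg (by simpa using h2) h.le, div_pos (mul_pos hn (not_le.1 h4)) h, ?_⟩
  rw [pow_succ ζ (k + 1)]
  generalize ζ ^ (k + 1) = w
  apply Complex.ext
  · simp only [Complex.add_re, Complex.mul_re, Complex.mul_im, Complex.ofReal_re, Complex.ofReal_im,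
      Complex.zero_re, Complex.normSq_apply]
    field_simp; ring
  · simp only [Complex.add_im, Complex.mul_re, Complex.mul_im, Complex.ofReal_re, Complex.ofReal_im,
      Complex.zero_im, Complex.normSq_apply]
    field_simp; ring

lemma pos_rel (ζ : ℂ) (h : ζ.im ≠ 0) :
    ∃ (n : ℕ) (b c : ℝ), 0 ≤ b ∧ 0 < c ∧ ζ ^ n + b * ζ + c = 0 := by
  rcases lt_or_gt_of_ne h with h | h
  · obtain ⟨n, b, c, h1, h2, h3⟩ := pos_rel_aux (starRingEnd ℂ ζ) (by simpa using h)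
    refine ⟨n, b, c, h1, h2, ?_⟩
    have := congrArg (starRingEnd ℂ) h3
    simpa using this
  · exact pos_rel_aux ζ h

lemma coeff_bound (θ : ℝ) (ζ : ℂ) (h : ζ.im ≠ 0) : ∃ κ : ℝ, 0 < κ ∧ ∀ A B C M : ℝ,
    |A + B * θ + C * θ ^ 2| ≤ M → ‖A + B * ζ + C * ζ ^ 2‖ ≤ M →
      |A| ≤ κ * M ∧ |B| ≤ κ * M ∧ |C| ≤ κ * M := by
  let f : (ℝ × ℝ × ℝ) →ₗ[ℝ] ℝ × ℂ :=
    { toFun := fun v => (v.1 + v.2.1 * θ + v.2.2 * θ ^ 2, v.1 + v.2.1 * ζ + v.2.2 * ζ ^ 2)
      map_add' := fun u v => by ext <;> simp <;> ring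
      map_smul' := fun c v => by ext <;> simp <;> ring }
  obtain ⟨K, hK, hf⟩ := f.exists_antilipschitzWith (by
    rw [LinearMap.ker_eq_bot']
    rintro ⟨A, B, C⟩ e
    simp only [f, LinearMap.coe_mk, AddHom.coe_mk, Prod.mk_eq_zero] at e
    obtain ⟨e1, e2⟩ := e
    have e3 := congrArg Complex.re e2
    have e4 := congrArg Complex.im e2
    simp [sq] at e3 e4
    have hB : B = -2 * C * ζ.re := by
      have : ζ.im * (B + 2 * C * ζ.re) = 0 := by linarith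
      have := (mul_eq_zero.1 this).resolve_left h
      linarith
    have hC : C * ((θ - ζ.re) ^ 2 + ζ.im ^ 2) = 0 := by
      rw [hB] at e1 e3; linarith
    have hC0 : C = 0 := (mul_eq_zero.1 hC).resolve_right (by positivity)
    rw [hC0] at hB
    have hB0 : B = 0 := by simpa using hB
    rw [hB0, hC0] at e1
    simp [hB0, hC0]; simpa using e1)
  refine ⟨K, hK, fun A B C M h1 h2 => ?_⟩
  have h3 := hf.le_mul_dist (A, B, C) 0
  rw [map_zero, dist_zero_right, dist_zero_right] at h3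
  have h4 : ‖f (A, B, C)‖ ≤ M := by
    rw [Prod.norm_def]; exact max_le h1 h2
  have h5 : ‖((A, B, C) : ℝ × ℝ × ℝ)‖ ≤ K * M :=
    h3.trans (mul_le_mul_of_nonneg_left h4 K.2)
  simp only [Prod.norm_def, Real.norm_eq_abs, max_le_iff] at h5
  exact h5

def L (θ : ℝ) (ζ : ℂ) (x : ℝ) (w : ℂ) : Prop :=
  ∃ A B C : ℤ, x = A + B * θ + C * θ ^ 2 ∧ w = A + B * ζ + C * ζ ^ 2

variable {θ β : ℝ} {ζ z : ℂ} {a b : ℤ}

lemma L.lin {x y : ℝ} {w v : ℂ} (h : L θ ζ x w) (h' : L θ ζ y v) (n : ℤ) :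
    L θ ζ (x + n * y) (w + n * v) := by
  obtain ⟨A, B, C, rfl, rfl⟩ := h
  obtain ⟨A', B', C', rfl, rfl⟩ := h'
  exact ⟨A + n * A', B + n * B', C + n * C', by push_cast; ring, by push_cast; ring⟩

lemma L_int (n : ℤ) : L θ ζ n n := ⟨n, 0, 0, by simp, by simp⟩

lemma L.down (h1 : θ ^ 3 = 1 - a * θ - b * θ ^ 2) (h2 : ζ ^ 3 = 1 - a * ζ - b * ζ ^ 2) {x : ℝ}
    {w : ℂ} (h : L θ ζ x w) (n : ℕ) : L θ ζ (x * θ ^ n) (w * ζ ^ n) := by
  induction n with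
  | zero => simpa using h
  | succ n ih =>
    obtain ⟨A, B, C, e1, e2⟩ := ih
    refine ⟨C, A - a * C, B - b * C, ?_, ?_⟩
    · rw [pow_succ, ← mul_assoc, e1]; push_cast; linear_combination C * h1
    · rw [pow_succ, ← mul_assoc, e2]; push_cast; linear_combination C * h2

lemma L.up (h1 : β = a + b * θ + θ ^ 2) (h2 : z = a + b * ζ + ζ ^ 2) (h3 : θ * β = 1)
    (h4 : ζ * z = 1) {x : ℝ} {w : ℂ} (h : L θ ζ x w) (n : ℕ) : L θ ζ (x * β ^ n) (w * z ^ n) := by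
  induction n with
  | zero => simpa using h
  | succ n ih =>
    obtain ⟨A, B, C, e1, e2⟩ := ih
    refine ⟨a * A + B, b * A + C, A, ?_, ?_⟩
    · rw [pow_succ, ← mul_assoc, e1]; push_cast; linear_combination A * h1 + (B + C * θ) * h3
    · rw [pow_succ, ← mul_assoc, e2]; push_cast; linear_combination A * h2 + (B + C * ζ) * h4

lemma key (hβ : 1 < β) (hζ : ζ.im ≠ 0) (h1 : β⁻¹ ^ 3 = 1 - a * β⁻¹ - b * β⁻¹ ^ 2)
    (h2 : ζ ^ 3 = 1 - a * ζ - b * ζ ^ 2) :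
    ∃ K : ℝ, ∀ y w, L β⁻¹ ζ y w → K ≤ y → ‖w‖ ≤ 1 → S β (y / β) := by
  obtain ⟨n, p, q, hp, hq, hr⟩ := pos_rel ζ hζ
  obtain ⟨κ, hκ, hb⟩ := coeff_bound β⁻¹ ζ hζ
  set θ := β⁻¹ with hθ
  have hθ0 : 0 < θ := by positivity
  set s : ℝ := 1 + θ + θ ^ 2 with hs
  set σ : ℂ := 1 + ζ + ζ ^ 2 with hσ
  have hL : L θ ζ s σ := ⟨1, 1, 1, by simp [hs], by simp [hσ]⟩
  set T : ℝ := (θ ^ n + p * θ + q) * s with hT
  have hT0 : 0 < T := by positivity
  set M : ℝ := 1 + s * θ ^ n + s * θ + ‖σ * ζ ^ n‖ + ‖σ * ζ‖ with hM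
  have hM0 : 0 < M := by positivity
  refine ⟨κ * M / q * T, fun y w hy hK hw => ?_⟩
  set u := y / T with hu
  have hu1 : κ * M ≤ u * q := by
    rw [← div_le_iff₀ hq, hu, le_div_iff₀ hT0]; exact hK
  have hu0 : 0 ≤ u := by
    by_contra hneg
    have : u * q < 0 := mul_neg_of_neg_of_pos (not_le.1 hneg) hq
    have : 0 < κ * M := by positivity
    linarith
  have hy2 : y = u * T := by rw [hu]; field_simp
  obtain ⟨A, B, C, e1, e2⟩ := (hy.lin (hL.down h1 h2 n) (-(⌊u⌋₊ : ℕ))).lin (hL.down h1 h2 1)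
    (-(⌊u * p⌋₊ : ℕ))
  have f1 := Nat.floor_le hu0
  have f2 := Nat.lt_floor_add_one u
  have f3 := Nat.floor_le (mul_nonneg hu0 hp)
  have f4 := Nat.lt_floor_add_one (u * p)
  push_cast at e1 e2
  obtain ⟨b1, b2, b3⟩ := hb (A - u * q) (B - u * q) (C - u * q) M (by
    have : A - u * q + (B - u * q) * θ + (C - u * q) * θ ^ 2 =
        (u - ⌊u⌋₊) * (s * θ ^ n) + (u * p - ⌊u * p⌋₊) * (s * θ) := by
      rw [hy2, hT] at e1
      linear_combination (-1) * e1 + (u * q) * hs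
    rw [this, abs_of_nonneg (add_nonneg (mul_nonneg (by linarith) (by positivity))
      (mul_nonneg (by linarith) (by positivity)))]
    have g1 : (u - ⌊u⌋₊) * (s * θ ^ n) ≤ s * θ ^ n :=
      mul_le_of_le_one_left (by positivity) (by linarith)
    have g2 : (u * p - ⌊u * p⌋₊) * (s * θ) ≤ s * θ :=
      mul_le_of_le_one_left (by positivity) (by linarith)
    have := norm_nonneg (σ * ζ ^ n)
    have := norm_nonneg (σ * ζ)
    linarith) (by
    have : ((A - u * q : ℝ) : ℂ) + ((B - u * q : ℝ) : ℂ) * ζ + ((C - u * q : ℝ) : ℂ) * ζ ^ 2 =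
        w + ((u - ⌊u⌋₊ : ℝ) : ℂ) * (σ * ζ ^ n) + ((u * p - ⌊u * p⌋₊ : ℝ) : ℂ) * (σ * ζ) := by
      push_cast
      linear_combination (-1) * e2 + (u * q) * hσ - u * σ * hr
    rw [this]
    have g1 : ‖((u - ⌊u⌋₊ : ℝ) : ℂ) * (σ * ζ ^ n)‖ ≤ ‖σ * ζ ^ n‖ := by
      rw [norm_mul _ (σ * ζ ^ n), Complex.norm_real, Real.norm_eq_abs, abs_of_nonneg (by linarith)]
      exact mul_le_of_le_one_left (by positivity) (by linarith)
    have g2 : ‖((u * p - ⌊u * p⌋₊ : ℝ) : ℂ) * (σ * ζ)‖ ≤ ‖σ * ζ‖ := by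
      rw [norm_mul _ (σ * ζ), Complex.norm_real, Real.norm_eq_abs, abs_of_nonneg (by linarith)]
      exact mul_le_of_le_one_left (by positivity) (by linarith)
    have g3 := norm_add₃_le (a := w) (b := ((u - ⌊u⌋₊ : ℝ) : ℂ) * (σ * ζ ^ n))
      (c := ((u * p - ⌊u * p⌋₊ : ℝ) : ℂ) * (σ * ζ))
    have : 0 ≤ s * θ ^ n := by positivity
    have : 0 ≤ s * θ := by positivity
    linarith)
  have nat : ∀ A : ℤ, |A - u * q| ≤ κ * M → ∃ N : ℕ, (A : ℝ) = N := by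
    intro A hA
    have : (0 : ℝ) ≤ A := by have := (abs_le.1 hA).1; linarith
    have h0 : 0 ≤ A := by exact_mod_cast this
    obtain ⟨N, rfl⟩ := Int.eq_ofNat_of_zero_le h0
    exact ⟨N, by simp⟩
  obtain ⟨A', hA⟩ := nat A b1
  obtain ⟨B', hB⟩ := nat B b2
  obtain ⟨C', hC⟩ := nat C b3
  have := ((((((((S_mon β A' 0).add (S_mon β B' 1)).add (S_mon β C' 2)).add
    (S_mon β ⌊u⌋₊ n)).add (S_mon β ⌊u⌋₊ (n + 1))).add (S_mon β ⌊u⌋₊ (n + 2))).add
    (S_mon β ⌊u * p⌋₊ 1)).add (S_mon β ⌊u * p⌋₊ 2)).add (S_mon β ⌊u * p⌋₊ 3)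
  convert this using 1
  rw [← hθ, ← hA, ← hB, ← hC]
  rw [hs] at e1
  linear_combination e1 / β

theorem result (β : ℝ) (a b : ℤ) (hβ : 1 < β) (hroot : β ^ 3 - a * β ^ 2 - b * β - 1 = 0)
    (z : ℂ) (hz : z.im ≠ 0) (hzroot : z ^ 3 - a * z ^ 2 - b * z - 1 = 0) :
    ∃ m : ℕ, ∀ x ∈ Algebra.adjoin ℤ {β}, 0 ≤ x → x < 1 → FinRep β m x := by
  have hβ0 : 0 < β := by linarith
  have hz0 : z ≠ 0 := fun e => by simp [e] at hz
  have hρ : ‖z‖ < 1 := by
    have h1 : (β : ℂ) ^ 3 - a * β ^ 2 - b * β - 1 = 0 := by exact_mod_cast hroot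
    have h2 : (z - β) * (z ^ 2 + (β - a) * z + (β ^ 2 - a * β - b)) = 0 := by
      linear_combination hzroot - h1
    have h3 := (mul_eq_zero.1 h2).resolve_left (fun e => hz (by
      have := congrArg Complex.im e; simpa using this))
    have e3 := congrArg Complex.re h3
    have e4 := congrArg Complex.im h3
    simp [sq] at e3 e4
    have h5 : 2 * z.re + (β - a) = 0 := by
      have : z.im * (2 * z.re + (β - a)) = 0 := by linarith
      exact (mul_eq_zero.1 this).resolve_left hz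
    have h6 : ‖z‖ ^ 2 * β = 1 := by
      rw [Complex.sq_norm, Complex.normSq_apply]
      linear_combination hroot - β * e3 + β * z.re * h5
    by_contra hc
    have : 1 ≤ ‖z‖ ^ 2 := one_le_pow₀ (not_lt.1 hc)
    nlinarith
  have hρ0 : 0 < ‖z‖ := norm_pos_iff.2 hz0
  have t3 : β⁻¹ * β = 1 := inv_mul_cancel₀ hβ0.ne'
  have t4 : z⁻¹ * z = 1 := inv_mul_cancel₀ hz0
  have t1 : β = a + b * β⁻¹ + β⁻¹ ^ 2 := by field_simp; linear_combination hroot
  have t2 : z = a + b * z⁻¹ + z⁻¹ ^ 2 := by field_simp; linear_combination hzroot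
  have t5 : β⁻¹ ^ 3 = 1 - a * β⁻¹ - b * β⁻¹ ^ 2 := by field_simp; linear_combination -hroot
  have t6 : z⁻¹ ^ 3 = 1 - a * z⁻¹ - b * z⁻¹ ^ 2 := by field_simp; linear_combination -hzroot
  have hζ : (z⁻¹).im ≠ 0 := by
    rw [Complex.inv_im]
    exact div_ne_zero (neg_ne_zero.2 hz) (Complex.normSq_pos.2 hz0).ne'
  obtain ⟨K, hK⟩ := key hβ hζ t5 t6
  have hpos : ∀ x w, L β⁻¹ z⁻¹ x w → 0 ≤ x → S β x := by
    intro x w hL hx
    rcases eq_or_lt_of_le hx with rfl | hx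
    · exact S_zero β
    have e1 := ((tendsto_pow_atTop_atTop_of_one_lt hβ).const_mul_atTop hx).eventually_ge_atTop K
    have e2 := ((tendsto_pow_atTop_nhds_zero_of_lt_one hρ0.le hρ).const_mul ‖w‖).eventually
      (ge_mem_nhds (show ‖w‖ * 0 < 1 by simp))
    obtain ⟨n, ⟨n1, n2⟩, n3⟩ := ((e1.and e2).and (Filter.eventually_ge_atTop 1)).exists
    obtain ⟨k, rfl⟩ : ∃ k, n = k + 1 := ⟨n - 1, by omega⟩
    have := (hK _ _ (hL.up t1 t2 t3 t4 (k + 1)) n1 (by rwa [norm_mul, norm_pow])).div k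
    convert this using 1
    field_simp
    ring
  set C0 := β / (1 - ‖z‖) with hC0
  have hC0' : C0 * (1 - ‖z‖) = β := by rw [hC0]; field_simp [(sub_pos.2 hρ).ne']
  have hC00 : 1 ≤ C0 := by
    rw [hC0, le_div_iff₀ (sub_pos.2 hρ)]; linarith
  obtain ⟨κ, hκ, hb⟩ := coeff_bound β⁻¹ z⁻¹ hζ
  have hfin : {x : ℝ | 0 ≤ x ∧ x < 1 ∧ ∃ w, L β⁻¹ z⁻¹ x w ∧ ‖w‖ ≤ C0 + 1}.Finite := by
    let I : Set ℤ := Set.Icc (-⌈κ * (C0 + 1)⌉) ⌈κ * (C0 + 1)⌉
    have hI : I.Finite := Set.finite_Icc _ _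
    refine ((hI.prod (hI.prod hI)).image
      (fun v : ℤ × ℤ × ℤ => (v.1 : ℝ) + v.2.1 * β⁻¹ + v.2.2 * β⁻¹ ^ 2)).subset ?_
    rintro x ⟨x0, x1, w, ⟨A, B, C, rfl, rfl⟩, hw⟩
    obtain ⟨b1, b2, b3⟩ := hb A B C (C0 + 1) (by rw [abs_of_nonneg x0]; linarith) (by simpa using hw)
    have hm : ∀ A : ℤ, |(A : ℝ)| ≤ κ * (C0 + 1) → A ∈ I := fun A hA => by
      have := hA.trans (Int.le_ceil _)
      have h2 : |A| ≤ ⌈κ * (C0 + 1)⌉ := by exact_mod_cast this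
      exact abs_le.1 h2
    exact ⟨(A, B, C), ⟨hm A b1, hm B b2, hm C b3⟩, rfl⟩
  obtain ⟨m, hm⟩ : ∃ m : ℕ, ∀ x ∈ {x : ℝ | 0 ≤ x ∧ x < 1 ∧ ∃ w, L β⁻¹ z⁻¹ x w ∧ ‖w‖ ≤ C0 + 1},
      FinRep β m x := by
    have := hfin.eventually_all (l := Filter.atTop) (p := fun x (m : ℕ) => FinRep β m x)
    refine (this.2 ?_).exists
    rintro x ⟨x0, -, w, hw, -⟩
    obtain ⟨m, hm⟩ := hpos x w hw x0
    filter_upwards [Filter.eventually_ge_atTop m] with n hn using hm.mono hn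
  have main : ∀ n : ℕ, ∀ x w, L β⁻¹ z⁻¹ x w → 0 ≤ x → x < 1 → ‖w‖ ≤ C0 + ‖z‖⁻¹ ^ n →
      FinRep β (m + ⌊β⌋₊) x := by
    intro n
    induction n with
    | zero => intro x w h x0 x1 hw; exact (hm x ⟨x0, x1, w, h, by simpa using hw⟩).mono (by omega)
    | succ n ih =>
      intro x w h x0 x1 hw
      have f1 := Nat.floor_le (mul_nonneg x0 hβ0.le)
      have f2 := Nat.lt_floor_add_one (x * β)
      have f3 : x * β ≤ β := mul_le_of_le_one_left hβ0.le x1.le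
      have h2 := (h.up t1 t2 t3 t4 1).lin (L_int 1) (-(⌊x * β⌋₊ : ℕ))
      simp only [pow_one, Int.cast_neg, Int.cast_natCast, Int.cast_one, mul_one] at h2
      have := (ih _ _ h2 (by linarith) (by linarith) (by
        refine (norm_add_le _ _).trans ?_
        rw [norm_mul, norm_neg, Complex.norm_natCast]
        have g1 := mul_le_mul_of_nonneg_right hw hρ0.le
        have g2 : ‖z‖⁻¹ ^ (n + 1) * ‖z‖ = ‖z‖⁻¹ ^ n := by rw [pow_succ]; field_simp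
        linarith)).cons ⌊x * β⌋₊ ((Nat.floor_le_floor f3).trans (by omega))
      convert this using 1
      field_simp
      ring
  refine ⟨m + ⌊β⌋₊, fun x hx x0 x1 => ?_⟩
  obtain ⟨w, hw⟩ : ∃ w, L β⁻¹ z⁻¹ x w := by
    rw [Algebra.adjoin_singleton_eq_range_aeval] at hx
    obtain ⟨p, rfl⟩ := hx
    clear x0 x1
    induction p using Polynomial.induction_on' with
    | add p q hp hq =>
      obtain ⟨w, hw⟩ := hp
      obtain ⟨v, hv⟩ := hq
      exact ⟨_, by simpa using hw.lin hv 1⟩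
    | monomial n c => exact ⟨_, by simpa using (L_int c).up t1 t2 t3 t4 n⟩
  obtain ⟨n, hn⟩ := ((tendsto_pow_atTop_atTop_of_one_lt
    ((one_lt_inv₀ hρ0).2 hρ)).eventually_ge_atTop ‖w‖).exists
  exact main n x w hw x0 x1 (by linarith)

end Pool.Agent.Results.MP_f878ff_nt.Finite
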